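import Pool.Agent.Lib_5f1296_ins.Ord

/-!
# MP_5f1296_al, Q1: a hyperabelian 2-group of exponent dividing 32 in which a bounded right Engel
element of order 2 generates a subgroup that is not subnormal in its own normal closure
-/

set_option autoImplicit false

namespace Pool.Agent.Results.MP_5f1296_al.HyperabelianCounterexample

open Pool.Agent.Lib_5f1296 Pool.Agent.Lib_5f1296_ins

/-- `engelComm a x n` is the iterated commutator `[a, x, ..., x]` with `n` entries `x`, in the
convention `[u, x] = u⁻¹ x⁻¹ u x`. -/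
def engelComm {G : Type} [Group G] (a x : G) : ℕ → G
  | 0 => a
  | n + 1 => (engelComm a x n)⁻¹ * x⁻¹ * engelComm a x n * x

/-- The set of bounded right Engel elements of `G`: the elements `a` with `[a, x, ..., x] = 1`
(`n` entries `x`) for all `x`, for some `n` that depends on `a` only. -/
def rBar (G : Type) [Group G] : Set G := {a | ∃ n : ℕ, ∀ x : G, engelComm a x n = 1}

/-- The set of the elements `a` for which there is an `n ≥ 1` such that for each `x` in `G` there
is a chain of subgroups `⟨x⟩ = H 0 ⊴ H 1 ⊴ ... ⊴ H n = ⟨x⟩⟨a⟩^G`. -/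
def rhoBar (G : Type) [Group G] : Set G :=
  {a | ∃ n : ℕ, 1 ≤ n ∧ ∀ x : G, ∃ H : ℕ → Subgroup G,
    H 0 = Subgroup.zpowers x ∧ H n = Subgroup.zpowers x ⊔ Subgroup.normalClosure {a} ∧
    ∀ i < n, H i ≤ H (i + 1) ∧ ((H i).subgroupOf (H (i + 1))).Normal}

theorem engelComm_eq {G : Type} [Group G] (a x : G) (n : ℕ) :
    engelComm a x n = (fun y : G => y⁻¹ * x⁻¹ * y * x)^[n] a := by
  induction n with
  | zero => rfl
  | succ n ih =>
    rw [Function.iterate_succ_apply', ← ih]
    rfl

/-- There is a countable group `G` of exponent dividing 32 with normal subgroups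
`1 = N 0 ≤ N 1 ≤ ...` of `G`, each commutator subgroup `[N (k + 1), N (k + 1)]` contained in
`N k`, whose union is a subgroup `M` of index 2 (so `G` is hyperabelian), and with an element `t`
of order 2 that is right 37-Engel although `⟨t⟩` is not subnormal in its own normal closure; so
`t` is a bounded right Engel element outside the set `rhoBar G`. -/
theorem result : ∃ (G : Type) (_ : Group G) (N : ℕ → Subgroup G) (M : Subgroup G) (t : G),
    (Countable G ∧ ∀ g : G, g ^ 32 = 1) ∧
    (N 0 = ⊥ ∧ Monotone N ∧ (∀ k, (N k).Normal) ∧ ∀ k, ⁅N (k + 1), N (k + 1)⁆ ≤ N k) ∧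
    ((M : Set G) = ⋃ k, (N k : Set G) ∧ M.index = 2) ∧
    (orderOf t = 2 ∧ ∀ x : G, engelComm t x 37 = 1) ∧
    ¬ ((Subgroup.zpowers t).subgroupOf (Subgroup.normalClosure {t})).IsSubnormal ∧
    t ∈ rBar G ∧ t ∉ rhoBar G := by
  have hE : ∀ x : GG EE, engelComm (τ EE) x 37 = 1 := by
    intro x
    rw [engelComm_eq]
    exact engel' EE x _
  refine ⟨GG EE, inferInstance, B EE, Bω EE, τ EE, ⟨countable_GG, pow32 EE⟩,
    ⟨B_zero EE, B_mono EE, B_normal EE KK_stab, ?_⟩, ⟨?_, Bω_index⟩, ⟨orderOf_τ, hE⟩,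
    not_isSubnormal' EE (fun a => x (2 * a)) (fun a => x_mem _) Fn_EE_ne, ⟨37, hE⟩, ?_⟩
  · intro k
    rw [Subgroup.commutator_le]
    intro g hg h hh
    rw [commutatorElement_def]
    exact B_comm EE k g h hg hh
  · ext g
    rw [Set.mem_iUnion]
    constructor
    · intro hg
      exact exists_B EE hg
    · rintro ⟨k, hk⟩
      exact B_le_Bω EE k hk
  · rintro ⟨n, -, hn⟩
    obtain ⟨H, h0, h1, h2⟩ := hn (τ EE)
    refine not_subnormal EE (fun a => x (2 * a)) (fun a => x_mem _) Fn_EE_ne n H h0 h1 ?_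
    intro i hi
    refine ⟨(h2 i hi).1, ?_⟩
    intro g hg h hh
    exact (Subgroup.normal_subgroupOf_iff (h2 i hi).1).1 (h2 i hi).2 h g hh hg

end Pool.Agent.Results.MP_5f1296_al.HyperabelianCounterexample
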